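import Pool.Agent.helper16.LW.Spec
import Pool.Agent.helper60.ZD.PR2

/-!
# Project lw (MP_4467b5_nt), module PB1: Poisson summation without the frequency 0
-/

set_option autoImplicit false

open Complex MeasureTheory

namespace Pool.Agent.LW

open Pool.Agent.ZD Pool.Agent.helper84.DM Pool.Agent.helper78.ED Pool.Agent.DH

theorem PB1_pow (A δ J X N : ℝ) (i : ℕ) (hi : A + 2 ≤ δ * i) (hJ : 1 ≤ J) (hX : 1 ≤ X)
    (hN0 : 0 < N) (hN : J ^ (1 + δ) ≤ X * N) :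
    X * ((2 * (2 * J)) ^ (i + 2) / (X ^ (i + 2) * N ^ i)) ≤ 4 ^ (i + 2) * J ^ (-A) := by
  have hJ0 : 0 < J := by linarith
  have hX0 : 0 < X := by linarith
  have hQ : 0 < J ^ (1 + δ) := Real.rpow_pos_of_pos hJ0 _
  have h1 : X * ((2 * (2 * J)) ^ (i + 2) / (X ^ (i + 2) * N ^ i)) =
      (4 * J) ^ (i + 2) / (X * N) ^ i / X := by
    rw [mul_pow X N i]
    field_simp
    ring
  have h2 : (4 * J) ^ (i + 2) / (X * N) ^ i ≤ (4 * J) ^ (i + 2) / (J ^ (1 + δ)) ^ i :=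
    div_le_div_of_nonneg_left (by positivity) (by positivity) (pow_le_pow_left₀ hQ.le hN i)
  have h3 : (4 * J) ^ (i + 2) / (J ^ (1 + δ)) ^ i =
      4 ^ (i + 2) * J ^ ((i + 2 : ℕ) - (1 + δ) * i : ℝ) := by
    rw [Real.rpow_sub hJ0, Real.rpow_natCast, Real.rpow_mul hJ0.le, Real.rpow_natCast, mul_pow]
    ring
  have h4 : J ^ ((i + 2 : ℕ) - (1 + δ) * i : ℝ) ≤ J ^ (-A) := by
    refine Real.rpow_le_rpow_of_exponent_le hJ ?_
    push_cast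
    nlinarith
  rw [h1]
  have h5 : (4 * J) ^ (i + 2) / (X * N) ^ i / X ≤ (4 * J) ^ (i + 2) / (X * N) ^ i :=
    div_le_self (by positivity) hX
  refine h5.trans (h2.trans ?_)
  rw [h3]
  exact mul_le_mul_of_nonneg_left h4 (by positivity)

theorem PB1 (h1 : POI_stmt) (h2 : CHX_stmt) (h3 : IBU_stmt) (h5 : PHS_stmt) : PB1_stmt := by
  intro A δ hA hδ
  obtain ⟨i, hi⟩ : ∃ i : ℕ, i = ⌈(A + 2) / δ⌉₊ := ⟨_, rfl⟩
  have hi1 : (A + 2) / δ ≤ (i : ℝ) := by rw [hi]; exact Nat.le_ceil _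
  have hj : A + 2 ≤ δ * i := by
    rw [div_le_iff₀ hδ] at hi1
    linarith
  obtain ⟨C1, hC1, hI⟩ := h3 (fun y => ((Phi y : ℝ) : ℂ)) h5.2.1 (i + 2)
  obtain ⟨Z, hZdef⟩ : ∃ Z : ℝ, Z = ∑' m : ℤ, 1 / (m : ℝ) ^ 2 := ⟨_, rfl⟩
  have hZ0 : 0 ≤ Z := by
    rw [hZdef]
    exact tsum_nonneg (fun m => by positivity)
  refine ⟨C1 * 4 ^ (i + 2) * Z + 1, by positivity, ?_⟩
  intro J M X u hJ hX hu hM
  have hJ1 : (1 : ℝ) ≤ J := by exact_mod_cast hJ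
  have hX0 : 0 < X := by linarith
  obtain ⟨hs, hB⟩ := h1 X u hX0
  have hBs := h2.2.2 X M u
  have hTA : 0 < (J : ℝ) ^ (-A) := Real.rpow_pos_of_pos (by linarith) _
  have hnot : (0 : ℤ) ∉ MM M := by simp [MM]
  have hz : HH u (((0 : ℤ) : ℝ) * X) = HH u 0 := by rw [Int.cast_zero, zero_mul]
  have hdiff : B1 X u - Complex.exp (-(((u * Real.log X : ℝ) : ℂ) * I)) * Bs X M u =
      Complex.exp (-(((u * Real.log X : ℝ) : ℂ) * I)) * ((X : ℂ) *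
        (∑' m : ℤ, HH u ((m : ℝ) * X) - ∑ m ∈ insert 0 (MM M), HH u ((m : ℝ) * X))) := by
    unfold B1 h0
    rw [hB, hBs, Finset.sum_insert hnot, hz]
    ring
  rw [hdiff, norm_mul, PR2_norm_exp, one_mul, norm_mul, Complex.norm_real, Real.norm_eq_abs,
    abs_of_pos hX0]
  have hN : (1 : ℝ) ≤ (M : ℝ) + 1 := by
    have : (0 : ℝ) ≤ M := Nat.cast_nonneg M
    linarith
  have htail : ‖∑' m : ℤ, HH u ((m : ℝ) * X) - ∑ m ∈ insert 0 (MM M), HH u ((m : ℝ) * X)‖ ≤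
      (C1 * ((2 * (2 * J)) ^ (i + 2) / (X ^ (i + 2) * ((M : ℝ) + 1) ^ i))) * Z := by
    rw [hZdef]
    refine PR2_tail (fun m : ℤ => HH u ((m : ℝ) * X)) (insert 0 (MM M)) _ (by positivity) hs ?_
    intro m hm
    have hm1 : (M : ℝ) + 1 ≤ |(m : ℝ)| := by
      have hm' : ¬ (m ∈ Finset.Icc (-(M : ℤ)) M) := by
        intro hmem
        apply hm
        rw [Finset.mem_insert]
        by_cases h0 : m = 0
        · exact Or.inl h0
        · exact Or.inr (Finset.mem_erase.2 ⟨h0, hmem⟩)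
      have hm2 : (M : ℤ) + 1 ≤ |m| := by
        by_contra hcon
        push Not at hcon
        apply hm'
        rw [Finset.mem_Icc]
        have := abs_le.1 (show |m| ≤ (M : ℤ) by omega)
        exact this
      have hm3 : (((M : ℤ) + 1 : ℤ) : ℝ) ≤ ((|m| : ℤ) : ℝ) := by exact_mod_cast hm2
      rw [Int.cast_abs] at hm3
      push_cast at hm3
      exact hm3
    exact PR2_high (2 * J) X ((M : ℝ) + 1) u m _ C1 i (by linarith) hX hN hu hm1 hC1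
      (hI u ((m : ℝ) * X))
  have hK := PB1_pow A δ J X ((M : ℝ) + 1) i hj hJ1 hX (by linarith) hM
  calc X * ‖∑' m : ℤ, HH u ((m : ℝ) * X) - ∑ m ∈ insert 0 (MM M), HH u ((m : ℝ) * X)‖
      ≤ X * ((C1 * ((2 * (2 * J)) ^ (i + 2) / (X ^ (i + 2) * ((M : ℝ) + 1) ^ i))) * Z) :=
        mul_le_mul_of_nonneg_left htail hX0.le
    _ = (C1 * Z) * (X * ((2 * (2 * J)) ^ (i + 2) / (X ^ (i + 2) * ((M : ℝ) + 1) ^ i))) := by ring
    _ ≤ (C1 * Z) * (4 ^ (i + 2) * (J : ℝ) ^ (-A)) :=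
        mul_le_mul_of_nonneg_left hK (by positivity)
    _ ≤ (C1 * 4 ^ (i + 2) * Z + 1) * (J : ℝ) ^ (-A) := by nlinarith

end Pool.Agent.LW
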